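import Pool.Agent.Helper94.BA.Sent

/-!
# Project BA, module V1: coding
-/

set_option autoImplicit false

namespace Pool.Agent.Helper94.BA

open Pool.Agent.Helper33.HM

universe u

section V1

variable {B : Type u} [CompleteBooleanAlgebra B]

/-! ## Relative equality -/

theorem h82_eqV_le (x y : ℕ → B) (n : ℕ) : eqV x y ⊓ x n ≤ y n := by
  rw [← le_himp_iff]
  exact (iInf_le _ n).trans inf_le_left

theorem h82_eqV_ge (x y : ℕ → B) (n : ℕ) : eqV x y ⊓ y n ≤ x n := by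
  rw [← le_himp_iff]
  exact (iInf_le _ n).trans inf_le_right

theorem h82_le_eqV {b : B} {x y : ℕ → B} (h1 : ∀ n, b ⊓ x n ≤ y n) (h2 : ∀ n, b ⊓ y n ≤ x n) :
    b ≤ eqV x y :=
  le_iInf fun n => le_inf (le_himp_iff.2 (h1 n)) (le_himp_iff.2 (h2 n))

theorem h82_eqV_refl (x : ℕ → B) : eqV x x = ⊤ :=
  top_le_iff.1 (h82_le_eqV (fun _ => inf_le_right) fun _ => inf_le_right)

theorem h82_eqV_comm (x y : ℕ → B) : eqV x y ≤ eqV y x :=
  h82_le_eqV (fun n => h82_eqV_ge x y n) fun n => h82_eqV_le x y n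

theorem h82_eqV_trans (x y z : ℕ → B) : eqV x y ⊓ eqV y z ≤ eqV x z := by
  refine h82_le_eqV (fun n => ?_) fun n => ?_
  · calc eqV x y ⊓ eqV y z ⊓ x n = eqV y z ⊓ (eqV x y ⊓ x n) := by
          rw [inf_comm (eqV x y) (eqV y z), inf_assoc]
      _ ≤ eqV y z ⊓ y n := inf_le_inf le_rfl (h82_eqV_le x y n)
      _ ≤ z n := h82_eqV_le y z n
  · calc eqV x y ⊓ eqV y z ⊓ z n = eqV x y ⊓ (eqV y z ⊓ z n) := inf_assoc _ _ _
      _ ≤ eqV x y ⊓ y n := inf_le_inf le_rfl (h82_eqV_ge y z n)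
      _ ≤ x n := h82_eqV_ge x y n

theorem h82_compl {b u v : B} (h : b ⊓ v ≤ u) : b ⊓ uᶜ ≤ vᶜ := by
  rw [le_compl_iff_disjoint_right, disjoint_iff]
  refine le_bot_iff.1 ?_
  calc b ⊓ uᶜ ⊓ v = (b ⊓ v) ⊓ uᶜ := by rw [inf_assoc, inf_comm uᶜ v, ← inf_assoc]
    _ ≤ u ⊓ uᶜ := inf_le_inf h le_rfl
    _ = ⊥ := inf_compl_self u
    _ ≤ ⊥ := le_rfl

theorem h82_himp {b f f' g : B} (h : b ⊓ f ≤ f') : b ⊓ (g ⇨ f) ≤ g ⇨ f' := by
  rw [le_himp_iff, inf_assoc, himp_inf_self]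
  exact (inf_le_inf le_rfl inf_le_left).trans h

theorem h82_himp_left {b f g g' : B} (h : b ⊓ g' ≤ g) : b ⊓ (g ⇨ f) ≤ g' ⇨ f := by
  rw [le_himp_iff]
  calc b ⊓ (g ⇨ f) ⊓ g' = (b ⊓ g') ⊓ (g ⇨ f) := by
        rw [inf_assoc, inf_comm (g ⇨ f) g', ← inf_assoc]
    _ ≤ g ⊓ (g ⇨ f) := inf_le_inf h le_rfl
    _ ≤ f := inf_himp_le

/-! ## Codes of functions -/

theorem decV_isFn (x : ℕ → B) : IsFn Set.univ (decV x) := by
  refine ⟨fun _ _ => Set.mem_univ _, fun n k => ?_, fun n => ?_⟩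
  · refine sup_le_sup (iSup₂_le fun j hj => ?_) le_rfl
    exact le_iSup₂ (f := fun (j : ℕ) (_ : j ≤ k + 1) => x (Nat.pair n j)) j (hj.trans (Nat.le_succ k))
  · refine top_le_iff.1 ?_
    rw [← sup_compl_eq_top (x := ⨆ j : ℕ, x (Nat.pair n j))]
    refine sup_le (iSup_le fun j => ?_) ?_
    · refine le_trans ?_ (le_iSup (decV x n) j)
      exact le_trans (le_iSup₂ (f := fun (i : ℕ) (_ : i ≤ j) => x (Nat.pair n i)) j le_rfl)
        le_sup_left
    · rw [compl_iSup]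
      exact le_trans (le_sup_right (a := ⨆ j : ℕ, ⨆ _ : j ≤ 0, x (Nat.pair n j)))
        (le_iSup (decV x n) 0)

theorem h82_eqN_sup {g : ℕ → B} (hg : ∀ k, g k ≤ g (k + 1)) (k : ℕ) :
    ⨆ j : ℕ, ⨆ _ : j ≤ k, eqN g j = g k := by
  have hmono : Monotone g := monotone_nat_of_le_succ hg
  refine le_antisymm (iSup₂_le fun j hj => inf_le_left.trans (hmono hj)) ?_
  have key : ∀ m, g m ≤ ⨆ j : ℕ, ⨆ _ : j ≤ m, eqN g j := by
    intro m
    induction m using Nat.strong_induction_on with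
    | _ m ih =>
      have h1 : g m ≤ (g m ⊓ ⨅ j : ℕ, ⨅ _ : j < m, (g j)ᶜ) ⊔ (⨅ j : ℕ, ⨅ _ : j < m, (g j)ᶜ)ᶜ := by
        rw [sup_inf_right, sup_compl_eq_top, inf_top_eq]
        exact le_sup_left
      refine h1.trans (sup_le ?_ ?_)
      · exact le_iSup₂ (f := fun (j : ℕ) (_ : j ≤ m) => eqN g j) m le_rfl
      · rw [compl_iInf]
        refine iSup_le fun j => ?_
        rw [compl_iInf]
        refine iSup_le fun hj => ?_
        rw [compl_compl]
        refine (ih j hj).trans (iSup₂_le fun i hi => ?_)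
        exact le_iSup₂ (f := fun (j : ℕ) (_ : j ≤ m) => eqN g j) i (hi.trans hj.le)
  exact key k

theorem decV_codV {g : ℕ → ℕ → B} (hg : IsFn Set.univ g) : decV (codV g) = g := by
  funext n k
  have h1 : ∀ j, codV g (Nat.pair n j) = eqN (g n) j := by
    intro j
    unfold codV
    rw [Nat.unpair_pair]
  unfold decV
  have h2 : (⨅ j : ℕ, (codV g (Nat.pair n j))ᶜ) = ⊥ := by
    rw [← compl_iSup, compl_eq_bot]
    refine top_le_iff.1 ?_
    rw [← hg.tot n]
    refine iSup_le fun m => ?_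
    rw [← h82_eqN_sup (hg.mono n) m]
    refine iSup₂_le fun j _ => ?_
    rw [← h1 j]
    exact le_iSup (fun j => codV g (Nat.pair n j)) j
  rw [h2, sup_bot_eq]
  simp only [h1]
  exact h82_eqN_sup (hg.mono n) k

/-! ## Extensionality -/

theorem h82_brV_ext (x y : ℕ → B) (w : ℕ → ℕ → B) (t : List (Bool × ℕ)) :
    eqV x y ⊓ brV y w t ≤ brV x w t := by
  refine le_iInf fun i => le_iInf fun h => ?_
  have h1 : brV y w t ≤ (if (t[i]).1 then y i else (y i)ᶜ) ⊓ w i (t[i]).2 :=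
    (iInf_le _ i).trans (iInf_le _ h)
  refine le_inf ?_ ((inf_le_right.trans h1).trans inf_le_right)
  refine (inf_le_inf le_rfl (h1.trans inf_le_left)).trans ?_
  by_cases hb : (t[i]).1 = true
  · rw [if_pos hb, if_pos hb]
    exact h82_eqV_ge x y i
  · rw [if_neg hb, if_neg hb]
    exact h82_compl (h82_eqV_le x y i)

theorem brT_ext (T : List (Bool × ℕ) → B) (x y : ℕ → B) (w : ℕ → ℕ → B) :
    eqV x y ⊓ brT T x w ≤ brT T y w := by
  refine le_inf (inf_le_right.trans inf_le_left) (le_iInf fun t => ?_)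
  refine (inf_le_inf le_rfl (inf_le_right.trans (iInf_le _ t))).trans ?_
  exact h82_himp_left (h82_brV_ext x y w t)

theorem unA_ext {ι : Type*} (T : ι → List (Bool × ℕ) → B) (x y : ℕ → B) :
    eqV x y ⊓ unA T x ≤ unA T y := by
  unfold unA
  rw [inf_iSup_eq]
  refine iSup_mono fun i => ?_
  rw [inf_iSup_eq]
  exact iSup_mono fun w => brT_ext (T i) x y w

/-- The name of the set of the points `x j`. -/
theorem isSetName_range {ι : Type*} (x : ι → ℕ → B) : IsSetName fun y => ⨆ j, eqV (x j) y := by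
  intro y z
  show eqV y z ⊓ (⨆ j, eqV (x j) y) ≤ ⨆ j, eqV (x j) z
  rw [inf_iSup_eq]
  refine iSup_mono fun j => ?_
  rw [inf_comm]
  exact h82_eqV_trans (x j) y z

theorem h82_shV_ext (s : ℕ) (x y : ℕ → B) : eqV x y ≤ eqV (shV s x) (shV s y) := by
  refine h82_le_eqV (fun n => ?_) fun n => ?_
  · unfold shV
    split_ifs
    · exact le_top
    · exact inf_le_right
    · exact h82_eqV_le x y _
  · unfold shV
    split_ifs
    · exact le_top
    · exact inf_le_right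
    · exact h82_eqV_ge x y _

theorem h82_brT_mono (T T' : List (Bool × ℕ) → B) (x : ℕ → B) (w : ℕ → ℕ → B) {b : B}
    (h : ∀ t, b ⊓ T t ≤ T' t) : b ⊓ brT T x w ≤ brT T' x w := by
  refine le_inf (inf_le_right.trans inf_le_left) (le_iInf fun t => ?_)
  refine (inf_le_inf le_rfl (inf_le_right.trans (iInf_le _ t))).trans ?_
  exact h82_himp (h t)

theorem famV_range {ι : Type*} (x : ι → ℕ → B) (C : (ℕ → B) → B) (hC : IsSetName C)
    (a : ℕ → B) : famV (fun y => ⨆ j, eqV (x j) y) C a = unA (fun j => treeV C (x j)) a := by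
  unfold famV unA
  refine le_antisymm ?_ ?_
  · refine iSup_le fun y => iSup_le fun w => ?_
    rw [iSup_inf_eq]
    refine iSup_le fun j => ?_
    refine le_trans ?_ (le_iSup _ j)
    refine le_trans ?_ (le_iSup _ w)
    refine h82_brT_mono _ _ a w fun t => ?_
    unfold treeV
    refine le_trans (inf_le_inf ?_ le_rfl)
      (hC (shV (Encodable.encode t) y) (shV (Encodable.encode t) (x j)))
    exact (h82_eqV_comm (x j) y).trans (h82_shV_ext _ y (x j))
  · refine iSup_le fun j => iSup_le fun w => ?_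
    refine le_trans ?_ (le_iSup _ (x j))
    refine le_trans ?_ (le_iSup _ w)
    refine le_inf ?_ le_rfl
    refine le_top.trans ?_
    rw [← h82_eqV_refl (x j)]
    exact le_iSup (fun j' => eqV (x j') (x j)) j

theorem leStar_decV_ext (x x' y : ℕ → B) :
    eqV x x' ⊓ leStar (decV x) (decV y) ≤ leStar (decV x') (decV y) := by
  unfold leStar
  rw [inf_iSup_eq]
  refine iSup_mono fun m => ?_
  refine le_iInf fun n => le_iInf fun hn => le_iInf fun k => ?_
  have h1 : (⨅ n : ℕ, ⨅ _ : m ≤ n, ⨅ k : ℕ, decV y n k ⇨ decV x n k) ≤ decV y n k ⇨ decV x n k :=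
    (iInf₂_le n hn).trans (iInf_le _ k)
  refine (inf_le_inf le_rfl h1).trans (h82_himp ?_)
  unfold decV
  rw [inf_sup_left]
  refine sup_le_sup ?_ ?_
  · rw [inf_iSup_eq]
    refine iSup_mono fun j => ?_
    rw [inf_iSup_eq]
    exact iSup_mono fun _ => h82_eqV_le x x' _
  · refine le_iInf fun j => ?_
    exact (inf_le_inf le_rfl (iInf_le _ j)).trans (h82_compl (h82_eqV_ge x x' _))

end V1

end Pool.Agent.Helper94.BA
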