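import Pool.Agent.Helper84.BA.Defs1

/-!
# Project BA, module B3: dependent choice for names
-/

set_option autoImplicit false

namespace Pool.Agent.Helper94.BA

open Pool.Agent.Helper33.HM

universe u v

section DepChoice

variable {B : Type u} [CompleteBooleanAlgebra B] {N : Type v}

/-- The value of: `s'` is the `R`-successor of `s` with the least code such that `V s'`. -/
noncomputable def dcP (c : N → ℕ) (V : N → B) (R : N → N → Prop) (s s' : N) : B :=
  ⨆ _ : R s s', V s' ⊓ ⨅ t : N, ⨅ _ : R s t ∧ c t < c s', (V t)ᶜ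

theorem dcP_le (c : N → ℕ) (V : N → B) (R : N → N → Prop) (s s' : N) :
    dcP c V R s s' ≤ V s' :=
  iSup_le fun _ => inf_le_left

theorem dcP_not (c : N → ℕ) (V : N → B) (R : N → N → Prop) (s s' : N) (h : ¬ R s s') :
    dcP c V R s s' = ⊥ :=
  le_bot_iff.1 (iSup_le fun h' => absurd h' h)

theorem dcP_lt (c : N → ℕ) (V : N → B) (R : N → N → Prop) (s s' t : N) (h : c s' < c t) :
    dcP c V R s s' ⊓ dcP c V R s t = ⊥ := by
  by_cases hR : R s s'
  · refine le_bot_iff.1 ?_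
    calc dcP c V R s s' ⊓ dcP c V R s t ≤ V s' ⊓ (V s')ᶜ := by
          refine inf_le_inf (dcP_le c V R s s') (iSup_le fun _ => inf_le_right.trans ?_)
          exact iInf₂_le s' ⟨hR, h⟩
      _ = ⊥ := inf_compl_self _
      _ ≤ ⊥ := le_rfl
  · rw [dcP_not c V R s s' hR, bot_inf_eq]

theorem dcP_disj (c : N → ℕ) (hc : Function.Injective c) (V : N → B) (R : N → N → Prop)
    (s s' t : N) (h : s' ≠ t) : dcP c V R s s' ⊓ dcP c V R s t = ⊥ := by
  rcases lt_or_gt_of_ne (fun e => h (hc e)) with h1 | h1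
  · exact dcP_lt c V R s s' t h1
  · rw [inf_comm]
    exact dcP_lt c V R s t s' h1

theorem dcP_cov (c : N → ℕ) (V : N → B) (R : N → N → Prop) (s : N) :
    ∀ (n : ℕ) (s' : N), c s' = n → R s s' → V s' ≤ ⨆ t, dcP c V R s t := by
  intro n
  induction n using Nat.strong_induction_on with
  | _ n ih =>
    intro s' hn hR
    have h1 : V s' ≤ (V s' ⊓ ⨅ t : N, ⨅ _ : R s t ∧ c t < c s', (V t)ᶜ) ⊔
        (⨅ t : N, ⨅ _ : R s t ∧ c t < c s', (V t)ᶜ)ᶜ := by
      rw [sup_inf_right, sup_compl_eq_top, inf_top_eq]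
      exact le_sup_left
    refine h1.trans (sup_le ?_ ?_)
    · refine le_trans ?_ (le_iSup _ s')
      exact le_iSup (fun _ : R s s' => V s' ⊓ ⨅ t : N, ⨅ _ : R s t ∧ c t < c s', (V t)ᶜ) hR
    · rw [compl_iInf]
      refine iSup_le fun t => ?_
      rw [compl_iInf]
      refine iSup_le fun ht => ?_
      rw [compl_compl]
      exact ih (c t) (hn ▸ ht.2) t rfl ht.1

/-- The value of: the `j`-th term is `s`. -/
noncomputable def dcF (c : N → ℕ) (V : N → B) (R : N → N → Prop) (s₀ : N) : ℕ → N → B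
  | 0 => fun s => ⨆ _ : s = s₀, V s
  | j + 1 => fun s' => ⨆ s : N, dcF c V R s₀ j s ⊓ dcP c V R s s'

end DepChoice

/-- N11. Dependent choice for names: `f j s` is the value of: the `j`-th term of the sequence
is `s`. -/
theorem dep_choice {B : Type u} [CompleteBooleanAlgebra B] {N : Type v} [Countable N]
    (V : N → B) (R : N → N → Prop) (hV : ∀ s, V s ≤ ⨆ s' : N, ⨆ _ : R s s', V s') (s₀ : N) :
    ∃ f : ℕ → N → B, f 0 s₀ = V s₀ ∧ (∀ s, s ≠ s₀ → f 0 s = ⊥) ∧ (∀ j s, f j s ≤ V s) ∧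
      (∀ j, ⨆ s, f j s = V s₀) ∧ (∀ j s s', s ≠ s' → f j s ⊓ f j s' = ⊥) ∧
      (∀ j s s', ¬ R s s' → f j s ⊓ f (j + 1) s' = ⊥) ∧
      (∀ i j s s', i ≤ j → ¬ Relation.ReflTransGen R s s' → f i s ⊓ f j s' = ⊥) := by
  obtain ⟨c, hc⟩ := Countable.exists_injective_nat N
  have h0 : ∀ s, s ≠ s₀ → dcF c V R s₀ 0 s = ⊥ := fun s hs =>
    le_bot_iff.1 (iSup_le fun h => absurd h hs)
  have h00 : dcF c V R s₀ 0 s₀ = V s₀ :=
    le_antisymm (iSup_le fun _ => le_rfl) (le_iSup (fun _ : s₀ = s₀ => V s₀) rfl)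
  have hle : ∀ j s, dcF c V R s₀ j s ≤ V s := by
    intro j s
    cases j with
    | zero => exact iSup_le fun _ => le_rfl
    | succ j => exact iSup_le fun t => inf_le_right.trans (dcP_le c V R t s)
  have hdisj : ∀ j s s', s ≠ s' → dcF c V R s₀ j s ⊓ dcF c V R s₀ j s' = ⊥ := by
    intro j
    induction j with
    | zero =>
      intro s s' hs
      by_cases h : s = s₀
      · rw [h0 s' (fun h' => hs (h.trans h'.symm)), inf_bot_eq]
      · rw [h0 s h, bot_inf_eq]
    | succ j ih =>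
      intro s s' hs
      refine le_bot_iff.1 ?_
      show (⨆ t : N, dcF c V R s₀ j t ⊓ dcP c V R t s) ⊓
        (⨆ t : N, dcF c V R s₀ j t ⊓ dcP c V R t s') ≤ ⊥
      rw [iSup_inf_eq]
      refine iSup_le fun t => ?_
      rw [inf_iSup_eq]
      refine iSup_le fun t' => ?_
      by_cases h : t = t'
      · subst h
        calc (dcF c V R s₀ j t ⊓ dcP c V R t s) ⊓ (dcF c V R s₀ j t ⊓ dcP c V R t s')
            ≤ dcP c V R t s ⊓ dcP c V R t s' := inf_le_inf inf_le_right inf_le_right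
          _ = ⊥ := dcP_disj c hc V R t s s' hs
          _ ≤ ⊥ := le_rfl
      · calc (dcF c V R s₀ j t ⊓ dcP c V R t s) ⊓ (dcF c V R s₀ j t' ⊓ dcP c V R t' s')
            ≤ dcF c V R s₀ j t ⊓ dcF c V R s₀ j t' := inf_le_inf inf_le_left inf_le_left
          _ = ⊥ := ih t t' h
          _ ≤ ⊥ := le_rfl
  have hsup : ∀ j, ⨆ s, dcF c V R s₀ j s = V s₀ := by
    intro j
    induction j with
    | zero =>
      refine le_antisymm (iSup_le fun s => ?_) (h00 ▸ le_iSup (dcF c V R s₀ 0) s₀)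
      by_cases h : s = s₀
      · rw [h, h00]
      · rw [h0 s h]
        exact bot_le
    | succ j ih =>
      rw [← ih]
      show (⨆ s' : N, ⨆ s : N, dcF c V R s₀ j s ⊓ dcP c V R s s') = _
      rw [iSup_comm]
      refine iSup_congr fun s => ?_
      rw [← inf_iSup_eq, inf_eq_left]
      refine (hle j s).trans ((hV s).trans (iSup_le fun s' => iSup_le fun hR => ?_))
      exact dcP_cov c V R s (c s') s' rfl hR
  refine ⟨dcF c V R s₀, h00, h0, hle, hsup, hdisj, ?_, ?_⟩
  · intro j s s' hR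
    refine le_bot_iff.1 ?_
    show dcF c V R s₀ j s ⊓ (⨆ t : N, dcF c V R s₀ j t ⊓ dcP c V R t s') ≤ ⊥
    rw [inf_iSup_eq]
    refine iSup_le fun t => ?_
    by_cases h : s = t
    · subst h
      rw [dcP_not c V R s s' hR, inf_bot_eq, inf_bot_eq]
    · calc dcF c V R s₀ j s ⊓ (dcF c V R s₀ j t ⊓ dcP c V R t s')
          ≤ dcF c V R s₀ j s ⊓ dcF c V R s₀ j t := inf_le_inf le_rfl inf_le_left
        _ = ⊥ := hdisj j s t h
        _ ≤ ⊥ := le_rfl
  · intro i j s s' hij hR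
    induction j, hij using Nat.le_induction generalizing s' with
    | base =>
      refine hdisj i s s' fun h => hR ?_
      rw [h]
    | succ j hij ih =>
      refine le_bot_iff.1 ?_
      show dcF c V R s₀ i s ⊓ (⨆ t : N, dcF c V R s₀ j t ⊓ dcP c V R t s') ≤ ⊥
      rw [inf_iSup_eq]
      refine iSup_le fun t => ?_
      by_cases h : Relation.ReflTransGen R s t
      · have h1 : ¬ R t s' := fun h' => hR (h.tail h')
        rw [dcP_not c V R t s' h1, inf_bot_eq, inf_bot_eq]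
      · calc dcF c V R s₀ i s ⊓ (dcF c V R s₀ j t ⊓ dcP c V R t s')
            ≤ dcF c V R s₀ i s ⊓ dcF c V R s₀ j t := inf_le_inf le_rfl inf_le_left
          _ = ⊥ := ih t h
          _ ≤ ⊥ := le_rfl

end Pool.Agent.Helper94.BA
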