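import Pool.Agent.Helper3.BA.WitnessFin
import Pool.Agent.Helper9.BA.CalcC2
import Pool.Agent.Helper46.BA.FinCalc
import Pool.Agent.Helper55.BA.Exhaust
import Pool.Agent.Helper84.BA.CalcC1
import Pool.Agent.Helper87.BA.ScaleSmall
import Pool.Agent.Helper98.BA.WitPos

/-!
# Project BA, module B15: the witness lemma and `J⁺` is `P⁺`
-/

set_option autoImplicit false
set_option linter.unusedVariables false

namespace Pool.Agent.Helper94.BA

open Pool.Agent.Helper33.HM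

universe u v

section

variable {B : Type u} [CompleteBooleanAlgebra B]

variable {K K' : Set (Finset ℕ → B)} {A : (ℕ → B) → B}

/-- N6. -/
theorem witness (hc : CCC B) (hK : SmallIdeal K) (hA : IsAD A) (Y : ℕ → ℕ → B)
    (hY : ∀ n, Y (n + 1) ≤ Y n) (hP : ∀ n, JP K A (Y n) = ⊤) :
    ∃ (y : ℕ → B) (a : ℕ → ℕ → B),
      (∀ n j, ∀ C ∈ K, memC (Y n ⊓ y ⊓ a j) C = ⊥) ∧
      ∀ K' : Set (Finset ℕ → B), SmallIdeal K' → Ref K K' → ∀ Z : ℕ → B,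
        (∀ n, finV (Z ⊓ (Y n ⊓ y)ᶜ) = ⊤) → (∀ j, ∀ C ∈ K', memC (Z ⊓ a j) C = ⊥) →
        JP K' A Z = ⊤ := by
  obtain ⟨a, e, hE⟩ := exists_exhaust hc (manyV K A Y) (manyV_ext hA Y)
  refine ⟨witY a e, witA a e, fun n j C hC => witness_pos hA hP hE n j hC, ?_⟩
  intro K' hK' hr Z h1 h2
  refine top_le_iff.1 ?_
  rw [← sup_compl_eq_top (x := ⨅ i, e i)]
  exact sup_le (witness_inf hK' hA hE Z h2) (witness_fin hK' hr hA hE Z h1 h2)

/-- A positive set stays positive when a finite set is removed. -/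
theorem h82_tail (hK : SmallIdeal K) (x : ℕ → B) (hx : ∀ C ∈ K, memC x C = ⊥) (n : ℕ)
    {C : Finset ℕ → B} (hC : C ∈ K) : memC (x ⊓ (finN n)ᶜ) C = ⊥ := by
  obtain ⟨C', hC', hn⟩ := hK.fin n
  obtain ⟨E, hE, hJ⟩ := hK.dir C hC C' hC'
  refine le_bot_iff.1 ?_
  have h1 : x ≤ (x ⊓ (finN n)ᶜ) ⊔ finN n := by
    rw [sup_inf_right, compl_sup_eq_top, inf_top_eq]
    exact le_sup_left
  calc memC (x ⊓ (finN n)ᶜ) C = memC (x ⊓ (finN n)ᶜ) C ⊓ memC (finN n) C' := by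
        rw [memC_eq_top_of_PC_le hn, inf_top_eq]
    _ ≤ memC ((x ⊓ (finN n)ᶜ) ⊔ finN n) (joinC C C') :=
        memC_joinC (hK.cf C hC) (hK.cf C' hC') _ _
    _ ≤ memC ((x ⊓ (finN n)ᶜ) ⊔ finN n) E := memC_mono hJ _
    _ ≤ memC x E := memC_anti h1 E
    _ = ⊥ := hx E hE
    _ ≤ ⊥ := le_rfl

/-- The name of the least `k` such that `x ∩ [n, k)` is not in `C`. -/
theorem h82_isFn (hK : SmallIdeal K) (Y : ℕ → ℕ → B) (hx : ∀ n, ∀ C ∈ K, memC (Y n) C = ⊥)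
    {C : Finset ℕ → B} (hC : C ∈ K) :
    IsFn Set.univ (fun n k => (memC (cut (Y n) n k) C)ᶜ) := by
  refine ⟨fun n k => Set.mem_univ _, fun n k => ?_, fun n => ?_⟩
  · exact compl_le_compl (memC_anti (cut_mono le_rfl n (Nat.le_succ k)) C)
  · rw [← compl_iInf, ← memC_tail, h82_tail hK (Y n) (hx n) n hC, compl_bot]

theorem h82_mono {h : ℕ → ℕ → B} (hh : IsFn Set.univ h) (n : ℕ) {k l : ℕ} (hkl : k ≤ l) :
    h n k ≤ h n l :=
  monotone_nat_of_le_succ (hh.mono n) hkl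

theorem h82_fin {h : ℕ → ℕ → B} (hh : IsFn Set.univ h) (n : ℕ) :
    finV (fun k => (h n k)ᶜ) = ⊤ := by
  refine top_le_iff.1 ?_
  rw [← hh.tot n]
  refine iSup_mono fun m => le_iInf₂ fun k hk => ?_
  rw [compl_compl]
  exact h82_mono hh n hk

theorem h82_fin' {h : ℕ → ℕ → B} (hh : IsFn Set.univ h) (n : ℕ) :
    finV (fun k => ⨆ m : ℕ, ⨆ _ : m < n, (h m k)ᶜ) = ⊤ := by
  induction n with
  | zero =>
    refine top_le_iff.1 ((finV_bot (B := B)).ge.trans (finV_mono fun k => ?_))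
    exact iSup₂_le fun m hm => absurd hm (Nat.not_lt_zero m)
  | succ n ih =>
    refine top_le_iff.1 ?_
    calc (⊤ : B) = finV (fun k => ⨆ m : ℕ, ⨆ _ : m < n, (h m k)ᶜ) ⊓ finV (fun k => (h n k)ᶜ) := by
          rw [ih, h82_fin hh n, inf_top_eq]
      _ = finV ((fun k => ⨆ m : ℕ, ⨆ _ : m < n, (h m k)ᶜ) ⊔ fun k => (h n k)ᶜ) :=
          (finV_sup _ _).symm
      _ ≤ _ := finV_mono fun k => iSup₂_le fun m hm => by
          rcases Nat.lt_succ_iff_lt_or_eq.1 hm with h1 | h1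
          · exact (le_iSup₂ (f := fun (m : ℕ) (_ : m < n) => (h m k)ᶜ) m h1).trans le_sup_left
          · subst h1
            exact le_sup_right (a := ⨆ m' : ℕ, ⨆ _ : m' < m, (h m' k)ᶜ)

/-- N7. `J⁺` is `P⁺`. -/
theorem pplus (hc : CCC B) {h : Ordinal.{0} → ℕ → ℕ → B} (hh : IsScale h) (hK : SmallIdeal K)
    (hA : IsAD A) (Y : ℕ → ℕ → B) (hY : ∀ n, Y (n + 1) ≤ Y n) (hP : ∀ n, JP K A (Y n) = ⊤) :
    ∃ Z ≤ Y 0, (∀ n, finV (Z ⊓ (Y n)ᶜ) = ⊤) ∧ JP K A Z = ⊤ := by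
  obtain ⟨y, a, h1, h2⟩ := witness hc hK hA Y hY hP
  have hanti : ∀ m n, m ≤ n → Y n ≤ Y m := fun m n hmn => antitone_nat_of_succ_le hY hmn
  have hsm : Small.{0} K := hK.small
  obtain ⟨β, hβ⟩ := scale_small hc hh
    (fun (i : K × ℕ) (n k : ℕ) => (memC (cut (Y n ⊓ y ⊓ a i.2) n k) i.1.1)ᶜ)
    (fun i => h82_isFn hK (fun n => Y n ⊓ y ⊓ a i.2) (fun n C hC => h1 n i.2 C hC) i.1.2)
  have hfn := hh.fn β
  let Z : ℕ → B := fun k => ⨆ n : ℕ, ⨆ _ : n ≤ k, Y n k ⊓ y k ⊓ (h β n k)ᶜ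
  have hfin : ∀ n, finV (Z ⊓ (Y n ⊓ y)ᶜ) = ⊤ := by
    intro n
    refine top_le_iff.1 ((h82_fin' hfn n).ge.trans (finV_mono fun k => ?_))
    show (⨆ m : ℕ, ⨆ _ : m ≤ k, Y m k ⊓ y k ⊓ (h β m k)ᶜ) ⊓ (Y n k ⊓ y k)ᶜ ≤ _
    rw [iSup_inf_eq]
    refine iSup_le fun m => ?_
    rw [iSup_inf_eq]
    refine iSup_le fun hm => ?_
    by_cases hmn : m < n
    · refine (inf_le_left.trans inf_le_right).trans ?_
      exact le_iSup₂ (f := fun (m : ℕ) (_ : m < n) => (h β m k)ᶜ) m hmn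
    · have h3 : Y m k ⊓ y k ⊓ (h β m k)ᶜ ≤ Y n k ⊓ y k :=
        inf_le_left.trans (inf_le_inf (hanti n m (not_lt.1 hmn) k) le_rfl)
      refine (inf_le_inf h3 le_rfl).trans ?_
      rw [inf_compl_self]
      exact bot_le
  refine ⟨Z, ?_, ?_, ?_⟩
  · intro k
    exact iSup₂_le fun n _ => (inf_le_left.trans inf_le_left).trans (hanti 0 n (Nat.zero_le n) k)
  · intro n
    refine top_le_iff.1 ((hfin n).ge.trans (finV_mono ?_))
    exact inf_le_inf le_rfl (compl_le_compl inf_le_left)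
  · refine h2 K hK (fun C hC => ⟨C, hC, le_rfl⟩) Z hfin ?_
    intro j C hC
    refine le_bot_iff.1 ?_
    have h3 := hβ (⟨C, hC⟩, j) 0
    calc memC (Z ⊓ a j) C = memC (Z ⊓ a j) C ⊓ ⨆ n : ℕ, ⨆ _ : 0 ≤ n,
          ltAt (fun n k => (memC (cut (Y n ⊓ y ⊓ a j) n k) C)ᶜ) (h β) n := by
          rw [h3, inf_top_eq]
      _ ≤ ⊥ := by
          rw [inf_iSup_eq]
          refine iSup_le fun n => ?_
          rw [inf_iSup_eq]
          refine iSup_le fun _ => ?_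
          show memC (Z ⊓ a j) C ⊓ (⨆ k : ℕ, (memC (cut (Y n ⊓ y ⊓ a j) n k) C)ᶜ ⊓ (h β n k)ᶜ) ≤ ⊥
          rw [inf_iSup_eq]
          refine iSup_le fun k => ?_
          have h4 : (h β n k)ᶜ ≤ ⨅ i, cut (Y n ⊓ y ⊓ a j) n k i ⇨ (Z ⊓ a j) i := by
            refine le_iInf fun i => ?_
            rw [le_himp_iff]
            by_cases hi : n ≤ i ∧ i < k
            · have h5 : cut (Y n ⊓ y ⊓ a j) n k i = (Y n i ⊓ y i) ⊓ a j i := if_pos hi
              rw [h5]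
              show (h β n k)ᶜ ⊓ ((Y n i ⊓ y i) ⊓ a j i) ≤ Z i ⊓ a j i
              refine le_inf ?_ (inf_le_right.trans inf_le_right)
              refine le_trans ?_ (le_iSup₂ (f := fun (n : ℕ) (_ : n ≤ i) =>
                Y n i ⊓ y i ⊓ (h β n i)ᶜ) n hi.1)
              refine le_inf (inf_le_right.trans inf_le_left) (inf_le_left.trans ?_)
              exact compl_le_compl (h82_mono hfn n hi.2.le)
            · have h5 : cut (Y n ⊓ y ⊓ a j) n k i = ⊥ := if_neg hi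
              rw [h5, inf_bot_eq]
              exact bot_le
          calc memC (Z ⊓ a j) C ⊓ ((memC (cut (Y n ⊓ y ⊓ a j) n k) C)ᶜ ⊓ (h β n k)ᶜ)
              = ((h β n k)ᶜ ⊓ memC (Z ⊓ a j) C) ⊓ (memC (cut (Y n ⊓ y ⊓ a j) n k) C)ᶜ := by
                rw [inf_comm ((memC (cut (Y n ⊓ y ⊓ a j) n k) C)ᶜ), ← inf_assoc,
                  inf_comm (memC (Z ⊓ a j) C)]
            _ ≤ memC (cut (Y n ⊓ y ⊓ a j) n k) C ⊓ (memC (cut (Y n ⊓ y ⊓ a j) n k) C)ᶜ :=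
                inf_le_inf ((inf_le_inf h4 le_rfl).trans (memC_sub _ _ C)) le_rfl
            _ = ⊥ := inf_compl_self _
            _ ≤ ⊥ := le_rfl

end

end Pool.Agent.Helper94.BA
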